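import Mathlib
import Pool.Agent.Work.MP_204ba2_pr.Defs
import Pool.Agent.Work.MP_204ba2_pr.Zeta

/-!
# The expected drift per site does not decide positive speed when the cookie stacks are unbounded

For every `δ ∈ [0,∞]` there is an i.i.d. weakly elliptic cookie environment with
`E[∑ (2ω(0,i)-1)⁻] < ∞` and `E[∑ (2ω(0,i)-1)] = δ` (so for finite `δ` the drifts are absolutely
summable in expectation) in which the excited random walk has speed `0`.
For `δ > 2` this contradicts the statement that `v_k ≠ 0` if and only if `k < δ - 1` (for `k = 1`).

The environment: each stack starts with a run of cookies `1` or a run of cookies `0` with a heavy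
tailed length, all other cookies are `1/2`.  If the walk meets a run of `t = 16^m` cookies `0`, it
has to make `t` excursions to the left before it can move on, and these excursions take at least
`K t / 2` steps with `K = 2^m`, since the `K` sites to the left of the run are visited at least
`t/2` times each.  Among the first `25^m` sites there is such a run with high probability, so
the hitting time of `25^m` is at least `32^m / 2`.
-/

namespace Pool.Agent.Results.MP_204ba2_pr.ZeroSpeed

open MeasureTheory ProbabilityTheory Filter Pool.Agent.Work.MP_204ba2_pr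
open scoped ENNReal

universe u

/-- For every `δ ∈ [0,∞]` there is a law `P` of cookie environments satisfying (IID) and (WEL),
with expected drift per site well defined and equal to `δ`, such that the excited random walk in
this environment has speed `0` almost surely (and such a walk exists). -/
theorem result (δ : ℝ≥0∞) :
    ∃ P : Measure Env, IsProbabilityMeasure P ∧ StacksIID P ∧ WeaklyElliptic P ∧
      negDrift P < ∞ ∧ posDrift P = δ + negDrift P ∧
      (∃ (Ω : Type) (_ : MeasurableSpace Ω) (μ : Measure Ω) (ω : Ω → Env) (X : ℕ → Ω → ℤ),
        IsProbabilityMeasure μ ∧ IsExcitedWalk P μ ω X) ∧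
      ∀ (Ω : Type u) [MeasurableSpace Ω] (μ : Measure Ω) [IsProbabilityMeasure μ]
        (ω : Ω → Env) (X : ℕ → Ω → ℤ), IsExcitedWalk P μ ω X →
        ∀ᵐ a ∂μ, Tendsto (fun n : ℕ => (X n a : ℝ) / n) atTop (nhds 0) := by
  obtain ⟨ζ, hζ, hheavy, h0, hneg, hpos⟩ := exists_heavy δ
  refine ⟨envLaw ζ, inferInstance, stacksIID_envLaw ζ, weaklyElliptic_envLaw ζ h0, hneg, hpos,
    ⟨_, _, base ζ, _, _, inferInstance, isExcitedWalk_base ζ⟩, ?_⟩
  intro Ω _ μ _ ω X h
  exact hheavy.speed_zero h

end Pool.Agent.Results.MP_204ba2_pr.ZeroSpeed
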